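import Mathlib
import Pool.Agent.E8helper69.CB.Stm

/-!
# Piece LIN of project CB
-/

set_option autoImplicit false

namespace Pool.Agent.E8helper9.CB

open NumberField Pool.Agent.E8helper69.CB

theorem minors {K : Type*} [Field K] (M : Matrix (Fin 3) (Fin 3) K) (v : Fin 3 → K)
    (hv : ∀ i, ∑ a, M i a * v a = 0) (a b j : Fin 3) :
    v a * M.adjugate b j = v b * M.adjugate a j := by
  have h0 := hv 0
  have h1 := hv 1
  have h2 := hv 2
  simp only [Fin.sum_univ_three] at h0 h1 h2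
  rw [Matrix.adjugate_fin_three]
  fin_cases a <;> fin_cases b <;> fin_cases j <;> simp <;> grind

theorem ker_adj {K : Type*} [Field K] (M : Matrix (Fin 3) (Fin 3) K) (hdet : M.det = 0)
    (i j : Fin 3) : ∑ a, M i a * M.adjugate a j = 0 := by
  have h := congrFun (congrFun (Matrix.mul_adjugate M) i) j
  rw [hdet] at h
  simpa [Matrix.mul_apply] using h

/-- every nonzero vector over the fraction field of a principal ideal domain is a multiple of a
primitive integral vector -/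
theorem primitive_multiple {R K : Type*} [CommRing R] [IsDomain R] [IsPrincipalIdealRing R]
    [Field K] [Algebra R K] [IsFractionRing R K] (v : Fin 3 → K) (i0 : Fin 3) (hv : v i0 ≠ 0) :
    ∃ (w r : Fin 3 → R) (t : K), t ≠ 0 ∧ (∀ a, v a = t * algebraMap R K (w a)) ∧
      ∑ a, r a * w a = 1 := by
  obtain ⟨d, hd⟩ := IsLocalization.exist_integer_multiples_of_finite (nonZeroDivisors R) v
  choose u hu using hd
  have hd0 : algebraMap R K (d : R) ≠ 0 := by
    have := nonZeroDivisors.ne_zero d.2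
    exact fun h => this ((IsFractionRing.injective R K) (by rw [h, map_zero]))
  have hu' : ∀ a, algebraMap R K (u a) = algebraMap R K (d : R) * v a := by
    intro a
    rw [hu a, Algebra.smul_def]
  -- the ideal generated by the `u a`
  obtain ⟨g, hg⟩ := (IsPrincipalIdealRing.principal (Ideal.span (Set.range u))).principal
  have hug : ∀ a, g ∣ u a := by
    intro a
    have : u a ∈ Ideal.span (Set.range u) := Ideal.subset_span ⟨a, rfl⟩
    rw [hg] at this
    exact (Ideal.mem_span_singleton).1 this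
  have hgm : g ∈ Ideal.span (Set.range u) := by
    rw [hg]; exact Ideal.mem_span_singleton_self g
  obtain ⟨r, hr⟩ := (Ideal.mem_span_range_iff_exists_fun).1 hgm
  choose w hw using hug
  have hui0 : u i0 ≠ 0 := by
    intro h
    have := hu' i0
    rw [h, map_zero] at this
    exact (mul_ne_zero hd0 hv) this.symm
  have hg0 : g ≠ 0 := by
    intro h
    apply hui0
    rw [hw i0, h, zero_mul]
  have hgK : algebraMap R K g ≠ 0 :=
    fun h => hg0 ((IsFractionRing.injective R K) (by rw [h, map_zero]))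
  refine ⟨w, r, algebraMap R K g / algebraMap R K (d : R), div_ne_zero hgK hd0, ?_, ?_⟩
  · intro a
    have h1 := hu' a
    rw [hw a, map_mul] at h1
    field_simp
    linear_combination -h1
  · have : g * (∑ a, r a * w a) = g * 1 := by
      rw [Finset.mul_sum, mul_one]
      conv_rhs => rw [← hr]
      apply Finset.sum_congr rfl
      intro a _
      conv_rhs => rw [hw a]
      ring
    exact mul_left_cancel₀ hg0 this

/-- LIN with the hypothesis `σ³ = 1` -/
theorem lin_aux (H : Type) [Field H] [NumberField H] [IsPrincipalIdealRing (𝓞 H)]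
    (σ : H ≃+* H) (h3 : ∀ u, σ (σ (σ u)) = u) (M : Matrix (Fin 3) (Fin 3) H)
    (G : Fin 3 → Fin 3 → Fin 3 → H)
    (hdet : M.det = 0) (hadj : M.adjugate ≠ 0)
    (hker : ∀ i b c, ∑ a, M i a * G a b c = 0) (hG : ∀ a b c, σ (G a b c) = G c a b) :
    ∃ (w : Fin 3 → H) (μ : H), (∀ a, IsIntegral ℤ (w a)) ∧
      (∃ r : Fin 3 → H, (∀ a, IsIntegral ℤ (r a)) ∧ ∑ a, r a * w a = 1) ∧ σ μ = μ ∧
      ∀ a b c, G a b c = μ * (w a * σ (w b) * σ (σ (w c))) := by
  obtain ⟨i0, j0, hij⟩ : ∃ i0 j0, M.adjugate i0 j0 ≠ 0 := by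
    by_contra hcon
    push Not at hcon
    exact hadj (by ext i j; simpa using hcon i j)
  obtain ⟨w, r, t, ht, hw, hr⟩ := primitive_multiple (R := 𝓞 H) (K := H)
    (fun a => M.adjugate a j0) i0 hij
  set W : Fin 3 → H := fun a => algebraMap (𝓞 H) H (w a) with hW
  have hw' : ∀ a, M.adjugate a j0 = t * W a := hw
  have hW0 : W i0 ≠ 0 := by
    intro h
    apply hij
    rw [hw' i0, h, mul_zero]
  -- the kernel
  have hv : ∀ (v : Fin 3 → H), (∀ i, ∑ a, M i a * v a = 0) → ∀ a, v a * W i0 = v i0 * W a := by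
    intro v hv a
    have h1 := minors M v hv a i0 j0
    rw [hw' i0, hw' a] at h1
    apply mul_left_cancel₀ ht
    linear_combination h1
  have hg : ∀ a b c, G a b c = W a * (G i0 b c / W i0) := by
    intro a b c
    have h1 : G a b c * W i0 = G i0 b c * W a := hv (fun a => G a b c) (fun i => hker i b c) a
    field_simp
    linear_combination h1
  have hG1 : ∀ a b c, G a b c = σ (G b c a) := fun a b c => (hG b c a).symm
  have hσW : σ (W i0) ≠ 0 := by
    simpa using hW0
  have hσσW : σ (σ (W i0)) ≠ 0 := by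
    simpa using hW0
  -- b-direction
  have hg2 : ∀ a b c, G a b c * σ (W i0) = G a i0 c * σ (W b) := by
    intro a b c
    rw [hG1 a b c, hG1 a i0 c, ← map_mul, ← map_mul]
    congr 1
    have h1 := hv (fun a' => G a' c a) (fun i => hker i c a) b
    simpa using h1
  have hg3 : ∀ a b c, G a b c * σ (σ (W i0)) = G a b i0 * σ (σ (W c)) := by
    intro a b c
    rw [hG1 a b c, hG1 a b i0, ← map_mul, ← map_mul]
    congr 1
    rw [hG1 b c a, hG1 b i0 a, ← map_mul, ← map_mul]
    congr 1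
    have h1 := hv (fun a' => G a' a b) (fun i => hker i a b) c
    simpa using h1
  have hg1 : ∀ a b c, G a b c * W i0 = G i0 b c * W a := by
    intro a b c
    exact hv (fun a' => G a' b c) (fun i => hker i b c) a
  refine ⟨W, G i0 i0 i0 / (W i0 * σ (W i0) * σ (σ (W i0))), ?_, ?_, ?_, ?_⟩
  · intro a
    exact (w a).isIntegral_coe
  · refine ⟨fun a => algebraMap (𝓞 H) H (r a), fun a => (r a).isIntegral_coe, ?_⟩
    have := congrArg (algebraMap (𝓞 H) H) hr
    simpa [map_sum, map_mul] using this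
  · rw [map_div₀, map_mul, map_mul, hG, h3]
    congr 1
    ring
  · intro a b c
    have e1 := hg1 a b c
    have e2 := hg2 i0 b c
    have e3 := hg3 i0 i0 c
    field_simp
    linear_combination (σ (W i0) * σ (σ (W i0))) * e1 + (W a * σ (σ (W i0))) * e2 +
      (W a * σ (W b)) * e3

/-- `σ³ = 1` for the field with basis `1, p, p², q, pq, p²q` -/
theorem sigma_cube (H : Type) [Field H] [CharZero H] (D : Fld H)
    (hspan : ∀ u : H, ∃ c : Fin 6 → ℚ, u = (c 0 : H) + c 1 * D.p + c 2 * D.p ^ 2 + c 3 * D.q +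
      c 4 * (D.p * D.q) + c 5 * (D.p ^ 2 * D.q)) (u : H) : D.σ (D.σ (D.σ u)) = u := by
  have hp : D.σ (D.σ (D.σ D.p)) = D.p := by
    rw [D.σp, D.σq, map_sub, map_neg, D.σp, D.σq]; ring
  have hq : D.σ (D.σ (D.σ D.q)) = D.q := by
    rw [D.σq, map_sub, map_neg, D.σp, D.σq, map_sub, map_neg, map_sub, map_neg, D.σp, D.σq]
    ring
  obtain ⟨c, rfl⟩ := hspan u
  simp only [map_add, map_mul, map_pow, map_ratCast, hp, hq]

/-- LIN: linear algebra over the principal ideal ring (with the hypothesis `σ³ = 1`) -/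
theorem t_LIN' (H : Type) [Field H] [NumberField H] [IsPrincipalIdealRing (𝓞 H)]
    (D : Fld H) (h3 : ∀ u, D.σ (D.σ (D.σ u)) = u)
    (M : Matrix (Fin 3) (Fin 3) H) (G : Fin 3 → Fin 3 → Fin 3 → H) :
    M.det = 0 → M.adjugate ≠ 0 →
    (∀ i b c, ∑ a, M i a * G a b c = 0) → (∀ a b c, D.σ (G a b c) = G c a b) →
    (∃ a b c, G a b c ≠ 0) →
    ∃ (w : Fin 3 → H) (μ : H), (∀ a, IsIntegral ℤ (w a)) ∧
      (∃ r : Fin 3 → H, (∀ a, IsIntegral ℤ (r a)) ∧ ∑ a, r a * w a = 1) ∧ D.σ μ = μ ∧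
      ∀ a b c, G a b c = μ * (w a * D.σ (w b) * D.σ (D.σ (w c))) :=
  fun h1 h2 h3' h4 _ => lin_aux H D.σ h3 M G h1 h2 h3' h4

/-- LIN with the spanning hypothesis in place of `σ³ = 1` -/
theorem t_LIN_span (H : Type) [Field H] [NumberField H] [IsPrincipalIdealRing (𝓞 H)]
    (D : Fld H)
    (hspan : ∀ u : H, ∃ c : Fin 6 → ℚ, u = (c 0 : H) + c 1 * D.p + c 2 * D.p ^ 2 + c 3 * D.q +
      c 4 * (D.p * D.q) + c 5 * (D.p ^ 2 * D.q))
    (M : Matrix (Fin 3) (Fin 3) H) (G : Fin 3 → Fin 3 → Fin 3 → H) :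
    M.det = 0 → M.adjugate ≠ 0 →
    (∀ i b c, ∑ a, M i a * G a b c = 0) → (∀ a b c, D.σ (G a b c) = G c a b) →
    (∃ a b c, G a b c ≠ 0) →
    ∃ (w : Fin 3 → H) (μ : H), (∀ a, IsIntegral ℤ (w a)) ∧
      (∃ r : Fin 3 → H, (∀ a, IsIntegral ℤ (r a)) ∧ ∑ a, r a * w a = 1) ∧ D.σ μ = μ ∧
      ∀ a b c, G a b c = μ * (w a * D.σ (w b) * D.σ (D.σ (w c))) :=
  t_LIN' H D (sigma_cube H D hspan) M G

end Pool.Agent.E8helper9.CB
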